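import Mathlib
import Pool.Agent.MP_44c6d5_nt.Aprod

namespace Pool.Agent.Results.MP_44c6d5_nt.ApproximateProducts

open Pool.Agent.MP_44c6d5_nt Real MvPolynomial MeasureTheory Module

/-- Let `G` be a non zero integer polynomial, `L` the sum of the absolute values of its
coefficients and `Φ h = 9 h (2 h + log 3) exp (6 h)`. Let `F` be a non zero integer polynomial whose
Mahler measure belongs to `M(G)` (or is at most some element of `M(G)`), and let `P` be a divisor of
a face polynomial of `F` (for instance `P = F`). Let `v_1, ..., v_r` be integral vectors and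
`g_1, ..., g_r` integrable functions on the torus `(ℝ / ℤ) ^ k`, `g_i` invariant under the
translations in the direction `v_i`. If the integral of `max 0 (log |P| - (g_1 + ... + g_r))` is at
most `K` and the integral of `g_1 + ... + g_r` at most `N`, put
`h = 2 ^ r (2 K + N) + r 2 ^ (r - 1) log L + log 2`. Then `P = P₀ Q_1 ... Q_r`, where all exponents
of `Q_i` have the same product with `v_i`, and `dim P₀ ≤ Φ h`. In particular, if `P` is irreducible
and, for every `i`, the exponents of `P` do not all have the same product with `v_i`, then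
`dim P ≤ Φ h`. -/
theorem result {k q : ℕ} (F P : MvPolynomial (Fin k) ℤ) (G : MvPolynomial (Fin q) ℤ)
    (y : Fin k → ℝ) (hF : F ≠ 0) (hG : G ≠ 0) (hPF : P ∣ ini y F)
    (hM : ∃ x ∈ MSet G, mahler F ≤ x)
    (L : ℝ) (hL : L = ∑ j ∈ G.support, |((coeff j G : ℤ) : ℝ)|)
    (Φ : ℝ → ℝ) (hΦ : ∀ h, Φ h = 9 * h * (2 * h + log 3) * exp (6 * h))
    (r : ℕ) (v : Fin r → Fin k → ℤ) (g : Fin r → (Fin k → UnitAddCircle) → ℝ) (K N h : ℝ)
    (hg : ∀ i, Integrable (g i))
    (hgv : ∀ i x (t : UnitAddCircle), g i (fun a => x a + v i a • t) = g i x)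
    (hK : ∫ t in Set.Icc (0 : Fin k → ℝ) 1,
      max 0 (log ‖val P t‖ - ∑ i, g i (fun a => (t a : UnitAddCircle))) ≤ K)
    (hN : ∫ t in Set.Icc (0 : Fin k → ℝ) 1, ∑ i, g i (fun a => (t a : UnitAddCircle)) ≤ N)
    (hh : h = 2 ^ r * (2 * K + N) + r * 2 ^ r / 2 * log L + log 2) :
    (∃ (P₀ : MvPolynomial (Fin k) ℤ) (Q : Fin r → MvPolynomial (Fin k) ℤ),
      P = P₀ * ∏ i, Q i ∧
      (∀ i, ∀ j ∈ (Q i).support, ∀ j' ∈ (Q i).support,
        wt (fun a => (v i a : ℝ)) j = wt (fun a => (v i a : ℝ)) j') ∧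
      (ndim P₀ : ℝ) ≤ Φ h) ∧
    (Irreducible P → (∀ i, ∃ j ∈ P.support, ∃ j' ∈ P.support,
        wt (fun a => (v i a : ℝ)) j ≠ wt (fun a => (v i a : ℝ)) j') →
      (ndim P : ℝ) ≤ Φ h) := by
  classical
  obtain ⟨x, hx, hFx⟩ := hM
  have hBd : mahler F ≤ log L := by
    rw [hL]
    exact hFx.trans (MSet_bdd hG hx)
  obtain ⟨hP, hPF'⟩ := mm_face_dvd_le y hF hPF
  have hPB : mm P ≤ log L := hPF'.trans hBd
  have hΦ' : ∀ h, Φ h = Phi h := hΦ
  have ig : Integrable fun x : Tor k => ∑ i, g i x := integrable_finsetSum _ fun i _ => hg i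
  have iφ : Integrable fun x : Tor k => log ‖ev P x‖ - ∑ i, g i x :=
    (integrable_log_ev hP).sub ig
  have iφp : Integrable fun x : Tor k => max 0 (log ‖ev P x‖ - ∑ i, g i x) := by
    have := iφ.pos_part
    simpa only [max_comm] using this
  have hK' : ∫ x : Tor k, max 0 (log ‖ev P x‖ - ∑ i, g i x) ≤ K := by
    rw [integral_torus_ae iφp.aestronglyMeasurable]
    simpa only [val_eq] using hK
  have hN' : ∫ x : Tor k, ∑ i, g i x ≤ N := by
    rw [integral_torus_ae ig.aestronglyMeasurable]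
    exact hN
  have hgv' : ∀ i x t, g i (line (v i) x t) = g i x := hgv
  constructor
  · obtain ⟨P₀, Q, h1, _, h3, h4⟩ := exists_splitting (fun i => rl (v i)) P hP
    refine ⟨P₀, Q, h1, fun i => h3 i, ?_⟩
    rw [hΦ', hh]
    exact ndim_le_core hP ⟨_, h1⟩ v g h4 hg hgv' hPB hK' hN'
  · intro hirr hne
    rw [hΦ', hh]
    refine ndim_le_core hP dvd_rfl v g ?_ hg hgv' hPB hK' hN'
    intro q' hq' hd i heq
    obtain ⟨j, hj, j', hj', hjj⟩ := hne i
    apply hjj
    rw [ini_eq_self_iff hq'.ne_zero] at heq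
    obtain ⟨w, hw⟩ := (hq'.associated_of_dvd hirr hd).symm.dvd
    have hw0 : w ≠ 0 := by
      rintro rfl
      rw [mul_zero] at hw
      exact hq'.ne_zero hw
    rw [hw, Lam_mul hP hw0] at heq
    exact heq.1 j hj j' hj'

end Pool.Agent.Results.MP_44c6d5_nt.ApproximateProducts
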