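import Mathlib
import Pool.Agent.MP_44c6d5_nt.Dom

namespace Pool.Agent.Results.MP_44c6d5_nt.Domination

open Pool.Agent.MP_44c6d5_nt Real MvPolynomial MeasureTheory Module

/-- Let `G` be a non zero integer polynomial, `L` the sum of the absolute values of its
coefficients and `Φ h = 9 h (2 h + log 3) exp (6 h)`. Let `F` be a non zero integer polynomial whose
Mahler measure belongs to `M(G)` (or is at most some element of `M(G)`), and let `P` be a divisor of
a face polynomial of `F` (for instance `P = F`).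

1. If `A`, `B` are non zero integer polynomials without common factor, `0 ≤ s` and the integral of
   `log (|A| ^ 2 + |B| ^ 2)` over the torus is at most `s m(P) + c`, then
   `dim (A B) ≤ Φ (s log L + c)`.
2. The same holds if `|A| ^ 2 + |B| ^ 2 ≤ e ^ c |P| ^ s` on the torus.
3. If `P` is irreducible and not self-reciprocal, then `dim P ≤ Φ (2 log L + log 2)`.
4. If the integral of `max 0 (- log |P|)` is at most `θ` times the integral of `max 0 (log |P|)`
   plus `K`, where `0 ≤ θ < 1`, then `dim P ≤ Φ (2 (log L + K) / (1 - θ) + log 2)`.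
5. If `|P| = |A| ^ 2 + |B| ^ 2` on the torus, where `A`, `B` are non zero integer polynomials
   without common factor, then `dim P ≤ Φ (log L)`. -/
theorem result {k q : ℕ} (F P : MvPolynomial (Fin k) ℤ) (G : MvPolynomial (Fin q) ℤ)
    (y : Fin k → ℝ) (hF : F ≠ 0) (hG : G ≠ 0) (hPF : P ∣ ini y F)
    (hM : ∃ x ∈ MSet G, mahler F ≤ x)
    (L : ℝ) (hL : L = ∑ j ∈ G.support, |((coeff j G : ℤ) : ℝ)|)
    (Φ : ℝ → ℝ) (hΦ : ∀ h, Φ h = 9 * h * (2 * h + log 3) * exp (6 * h)) :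
    (∀ (A B : MvPolynomial (Fin k) ℤ) (s c : ℝ), A ≠ 0 → B ≠ 0 → IsRelPrime A B → 0 ≤ s →
      ∫ t in Set.Icc (0 : Fin k → ℝ) 1, log (‖val A t‖ ^ 2 + ‖val B t‖ ^ 2) ≤
        s * mahler P + c →
      (ndim (A * B) : ℝ) ≤ Φ (s * log L + c)) ∧
    (∀ (A B : MvPolynomial (Fin k) ℤ) (s c : ℝ), A ≠ 0 → B ≠ 0 → IsRelPrime A B → 0 ≤ s →
      (∀ t : Fin k → ℝ, ‖val A t‖ ^ 2 + ‖val B t‖ ^ 2 ≤ exp c * ‖val P t‖ ^ s) →
      (ndim (A * B) : ℝ) ≤ Φ (s * log L + c)) ∧
    (Irreducible P → rev P ≠ P → rev P ≠ -P → (ndim P : ℝ) ≤ Φ (2 * log L + log 2)) ∧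
    (∀ θ K : ℝ, 0 ≤ θ → θ < 1 →
      ∫ t in Set.Icc (0 : Fin k → ℝ) 1, max 0 (-log ‖val P t‖) ≤
        θ * (∫ t in Set.Icc (0 : Fin k → ℝ) 1, max 0 (log ‖val P t‖)) + K →
      (ndim P : ℝ) ≤ Φ (2 * (log L + K) / (1 - θ) + log 2)) ∧
    (∀ A B : MvPolynomial (Fin k) ℤ, A ≠ 0 → B ≠ 0 → IsRelPrime A B →
      (∀ t : Fin k → ℝ, ‖val P t‖ = ‖val A t‖ ^ 2 + ‖val B t‖ ^ 2) →
      (ndim P : ℝ) ≤ Φ (log L)) := by
  obtain ⟨x, hx, hFx⟩ := hM
  have hBd : mahler F ≤ log L := by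
    rw [hL]
    exact hFx.trans (MSet_bdd hG hx)
  obtain ⟨hP, hPF'⟩ := mm_face_dvd_le y hF hPF
  have hPB : mm P ≤ log L := hPF'.trans hBd
  have hΦ' : ∀ h, Φ h = Phi h := hΦ
  have key : ∀ (A B : Pol k) (s c : ℝ), A ≠ 0 → B ≠ 0 → IsRelPrime A B → 0 ≤ s →
      H A B ≤ s * mm P + c → (k : ℝ) - finrank ℝ (LL A B) ≤ Φ (s * log L + c) := by
    intro A B s c hA hB hAB hs hH
    rw [hΦ']
    apply ndim_mul_le hA hB hAB
    have := mul_le_mul_of_nonneg_left hPB hs
    linarith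
  have key2 : ∀ (A B : Pol k) (s c : ℝ), A ≠ 0 → B ≠ 0 → IsRelPrime A B → 0 ≤ s →
      H A B ≤ s * mm P + c → (ndim (A * B) : ℝ) ≤ Φ (s * log L + c) := by
    intro A B s c hA hB hAB hs hH
    have h1 := key A B s c hA hB hAB hs hH
    have h4 := ndim_add_le (A * B)
    have h5 : Lam (A * B) = LL A B := Lam_mul hA hB
    rw [h5] at h4
    have h6 : (ndim (A * B) : ℝ) + finrank ℝ (LL A B) ≤ k := by exact_mod_cast h4
    linarith
  refine ⟨?_, ?_, ?_, ?_, ?_⟩
  · intro A B s c hA hB hAB hs hI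
    rw [← H_eq_val, mahler_eq] at hI
    exact key2 A B s c hA hB hAB hs hI
  · intro A B s c hA hB hAB hs hdom
    apply key2 A B s c hA hB hAB hs
    have h1 := H_le_of_dom (B := B) hA hP (N' := exp c) (s := s) (Real.exp_pos c) (by
      intro z
      obtain ⟨t, ht⟩ := exists_arg z
      rw [ht A, ht B, ht P]
      exact hdom t)
    rw [Real.log_exp] at h1
    linarith
  · intro hirr hrev hrev'
    rw [hΦ']
    have h3 := mahler_nonneg hF
    have h4 : 0 ≤ log 2 := Real.log_nonneg (by norm_num)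
    have h5 := ndim_le_rev hF y hirr hPF hrev hrev'
    have h6 : Phi (2 * mahler F + log 2) ≤ Phi (2 * log L + log 2) :=
      Phi_mono (by linarith) (by linarith)
    exact h5.trans h6
  · intro θ K hθ hθ' hK
    have h1 := H_one_le hP hθ' hK
    have h2 : H 1 P ≤ 0 * mm P + (2 * (log L + K) / (1 - θ) + log 2) := by
      have h3 : (mm P + K) / (1 - θ) ≤ (log L + K) / (1 - θ) :=
        div_le_div_of_nonneg_right (by linarith) (by linarith)
      have h4 : 2 * (log L + K) / (1 - θ) = 2 * ((log L + K) / (1 - θ)) := by ring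
      rw [h4]
      linarith
    have h3 := key2 1 P 0 _ one_ne_zero hP isRelPrime_one_left le_rfl h2
    rwa [one_mul, zero_mul, zero_add] at h3
  · intro A B hA hB hAB hsos
    have hsos' : ∀ z : Tor k, ‖ev P z‖ = ‖ev A z‖ ^ 2 + ‖ev B z‖ ^ 2 := by
      intro z
      obtain ⟨t, ht⟩ := exists_arg z
      rw [ht A, ht B, ht P]
      exact hsos t
    have h1 : H A B ≤ 1 * mm P + 0 := by
      have h2 : H A B = mm P := by
        unfold H mm
        simp only [N, hsos']
      rw [h2]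
      linarith
    have h3 := key A B 1 0 hA hB hAB zero_le_one h1
    rw [one_mul, add_zero] at h3
    have h4 : finrank ℝ (LL A B) ≤ finrank ℝ (Lam P) := Submodule.finrank_mono (sos_Lam hP hsos')
    have h5 := ndim_add_le P
    have h6 : (ndim P : ℝ) + finrank ℝ (LL A B) ≤ k := by
      have : ndim P + finrank ℝ (LL A B) ≤ k := by omega
      exact_mod_cast this
    linarith

end Pool.Agent.Results.MP_44c6d5_nt.Domination
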