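import Mathlib
import Pool.Agent.MP_44c6d5_nt.CP.U8
import Pool.Agent.MP_44c6d5_nt.CP.V11

namespace Pool.Agent.Results.MP_44c6d5_nt.FewWidths

open Pool.Agent.MP_44c6d5_nt Pool.Agent.MP_44c6d5_nt.CP Real MvPolynomial

/-- Let `G` be a non zero integer polynomial and `L` the sum of the absolute values of its
coefficients. Let `F` be a non zero integer polynomial whose Mahler measure belongs to `M(G)` (or is
at most some element of `M(G)`), and let `P` be an irreducible factor of a face polynomial of `F`
(for instance `P = F`). Let `R = ini z P` be a face polynomial of `P` (for instance `P`, for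
`z = 0`), and let `v 1, ..., v n` be integer vectors which are linearly independent modulo the
functionals that are constant on the exponents of `R`. If, for every `j`, the positive widths of
the face polynomials of `R` (with `R` itself) in the direction `v j` take at most `t` values, all of
them at least `1 / B` times the width of `P` in this direction, then
`n ≤ t exp (16000 B (log L + 1))`. -/
theorem result {k q n t : ℕ} (F P : MvPolynomial (Fin k) ℤ) (G : MvPolynomial (Fin q) ℤ)
    (y z : Fin k → ℝ) (hF : F ≠ 0) (hG : G ≠ 0) (hP : Irreducible P) (hPF : P ∣ ini y F)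
    (hM : ∃ x ∈ MSet G, mahler F ≤ x) (L : ℝ)
    (hL : L = ∑ j ∈ G.support, |((coeff j G : ℤ) : ℝ)|)
    (v : Fin n → Fin k → ℤ)
    (hv : ∀ c : Fin n → ℝ, (∀ a ∈ (ini z P).support, ∀ b ∈ (ini z P).support,
      wt (fun i => ∑ j, c j * (v j i : ℝ)) a = wt (fun i => ∑ j, c j * (v j i : ℝ)) b) → c = 0)
    (S : Fin n → Finset ℝ) (hS : ∀ j, (S j).card ≤ t) (B : ℝ)
    (hW : ∀ (j : Fin n) (x : Fin k → ℝ),
      width (fun i => (v j i : ℝ)) (ini x (ini z P)) = 0 ∨
        (width (fun i => (v j i : ℝ)) (ini x (ini z P)) ∈ S j ∧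
          width (fun i => (v j i : ℝ)) P ≤ B * width (fun i => (v j i : ℝ)) (ini x (ini z P)))) :
    (n : ℝ) ≤ t * exp (16000 * B * (log L + 1)) := by
  obtain ⟨x, hx, hFx⟩ := hM
  have hB : mahler F ≤ log (len G) := hFx.trans (MSet_bdd hG hx)
  have hini := ini_ne_zero y hF
  have h5 := mm_dvd_le hini hPF
  have h6 := mm_ini_le y hF
  have hLl : L = len G := hL
  have hPB : mm P ≤ log L := by rw [mahler_eq] at hB; rw [hLl]; linarith
  exact few_widths hP z v hv S hS hW hPB

end Pool.Agent.Results.MP_44c6d5_nt.FewWidths
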