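import Mathlib
import Pool.Agent.MP_44c6d5_nt.CP.U8
import Pool.Agent.MP_44c6d5_nt.CP.X12
import Pool.Agent.MP_44c6d5_nt.CP.Z5

namespace Pool.Agent.Results.MP_44c6d5_nt.MinkowskiSums

open Pool.Agent.MP_44c6d5_nt Pool.Agent.MP_44c6d5_nt.CP Real MvPolynomial
open scoped Pointwise

/-- Let `G` be a non zero integer polynomial and `L` the sum of the absolute values of its
coefficients. Let `F` be a non zero integer polynomial whose Mahler measure belongs to `M(G)` (or is
at most some element of `M(G)`), and let `P` be an irreducible factor of a face polynomial of `F`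
(for instance `P = F`).

(1) Let `ini z P` be a face polynomial of `P` (for instance `P`, for `z = 0`), and let its exponent
polytope be a Minkowski sum of polytopes `Q 1, ..., Q p`. Let `v 1, ..., v n` be integer vectors.
Call `Q a` good if its width is not zero for at most `r` of the `v j`. Let `W > 0` and `B` be real
numbers such that, for every `j`, the sum of the widths of the good `Q a` in the direction `v j` is
at least `W`, and the width of `ini z P` in this direction is at most `B W`. Suppose that for every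
set `I` of indices there are signs `σ j` for which the width of `P` in the direction of the sum of
the `σ j • v j`, `j ∈ I`, is at most `B W (|I| + √(n |I| / r))`. Then
`n ≤ r exp (exp (100 (B + log L + 1)))`.

(2) In particular, let the exponent polytope of `P` be the sum of a polytope `Q` and of a zonotope of
dimension `d` with at most `K d` generators `g 1, ..., g N`, which may be any integer vectors. Let
the square of the width of `Q` in the direction `u` be at most `K ^ 2` times the sum of the numbers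
`⟨u, g a⟩ ^ 2`, for all integer vectors `u` (for instance, let `Q` be a point). Then
`d ≤ 16 exp (exp (100 (100 K ^ 2 + log L + 1)))`. -/
theorem result {k q : ℕ} (F P : MvPolynomial (Fin k) ℤ) (G : MvPolynomial (Fin q) ℤ)
    (y : Fin k → ℝ) (hF : F ≠ 0) (hG : G ≠ 0) (hP : Irreducible P) (hPF : P ∣ ini y F)
    (hM : ∃ x ∈ MSet G, mahler F ≤ x) (L : ℝ)
    (hL : L = ∑ j ∈ G.support, |((coeff j G : ℤ) : ℝ)|) :
    (∀ (n p r : ℕ) (z : Fin k → ℝ) (Q : Fin p → Finset (Fin k → ℝ)), (∀ a, (Q a).Nonempty) →
      newton (ini z P) = ∑ a, convexHull ℝ (Q a : Set (Fin k → ℝ)) →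
      ∀ (v : Fin n → Fin k → ℤ) (W B : ℝ), 0 < W →
      (∀ j, W ≤ ∑ a with {j : Fin n | wdF (Q a) (fun i => (v j i : ℝ)) ≠ 0}.ncard ≤ r,
        wdF (Q a) (fun i => (v j i : ℝ))) →
      (∀ j, width (fun i => (v j i : ℝ)) (ini z P) ≤ B * W) →
      (∀ I : Finset (Fin n), ∃ σ : Fin n → ℤ, (∀ j, σ j = 1 ∨ σ j = -1) ∧
        width (fun i => ((∑ j ∈ I, σ j * v j i : ℤ) : ℝ)) P ≤
          B * W * (I.card + √(n * I.card / r))) →
      (n : ℝ) ≤ r * exp (exp (100 * (B + log L + 1)))) ∧
    (∀ (N d : ℕ) (Q : Finset (Fin k → ℝ)) (g : Fin N → Fin k → ℤ), Q.Nonempty →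
      newton P = convexHull ℝ (Q : Set (Fin k → ℝ)) +
        ∑ a, convexHull ℝ ({0, fun i => (g a i : ℝ)} : Set (Fin k → ℝ)) →
      Module.finrank ℝ (Submodule.span ℝ (Set.range fun a => (fun i => (g a i : ℝ)))) = d →
      ∀ K : ℝ, (N : ℝ) ≤ K * d →
      (∀ u : Fin k → ℤ, wdF Q (fun i => (u i : ℝ)) ^ 2 ≤
        K ^ 2 * ∑ a, dotR (fun i => (u i : ℝ)) (fun i => (g a i : ℝ)) ^ 2) →
      (d : ℝ) ≤ 16 * exp (exp (100 * (100 * K ^ 2 + log L + 1)))) := by
  obtain ⟨x, hx, hFx⟩ := hM
  have hB : mahler F ≤ log (len G) := hFx.trans (MSet_bdd hG hx)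
  have hini := ini_ne_zero y hF
  have h5 := mm_dvd_le hini hPF
  have h6 := mm_ini_le y hF
  have hLl : L = len G := hL
  have hPB : mm P ≤ log L := by rw [mahler_eq] at hB; rw [hLl]; linarith
  refine ⟨?_, ?_⟩
  · intro n p r z Q hQ hN v W B hW hgood hwide hsum
    exact mink_sums hP z Q hQ hN v hW hgood hwide hsum hPB
  · intro N d Q g hQ hN hd K hK hQw
    exact z5_zonotope hP Q hQ g hN hd hK hQw hPB

end Pool.Agent.Results.MP_44c6d5_nt.MinkowskiSums
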